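import Pool.Agent.Helper310.SchedMain
import Pool.Agent.Helper310.SchedSeq

set_option autoImplicit false

namespace Pool.Agent.Results.MP_a5173a_lc.LogLowerBound

open Pool.Agent.Helper310.Sched

/-- The optimal competitive ratio `c*(m)` of deterministic online algorithms for restricted
assignment on `m` machines with unknown running times and restarts, as an infimum in the extended
reals. -/
noncomputable def cStar (m : ℕ) : EReal :=
  ⨅ c : {c : ℝ // ∃ A : OnlineAlg m, A.Competitive c}, ((c : ℝ) : EReal)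

/-- Sanity check: the model is not vacuous, `c*(m) ≤ m`. -/
theorem cStar_le (m : ℕ) : cStar m ≤ ((m : ℝ) : EReal) :=
  iInf_le (fun c : {c : ℝ // ∃ A : OnlineAlg m, A.Competitive c} => ((c : ℝ) : EReal))
    ⟨(m : ℝ), exists_competitive m⟩

lemma one_le {m : ℕ} (hm : 1 ≤ m) (A : OnlineAlg m) {c : ℝ} (hA : A.Competitive c) : 1 ≤ c := by
  let i₀ : Fin m := ⟨0, hm⟩
  let elig : Fin 1 → Finset (Fin m) := fun _ => {i₀}
  let p : Fin 1 → ℝ := fun _ => 1
  have hne : ∀ j, (elig j).Nonempty := fun _ => Finset.singleton_nonempty _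
  have hp : ∀ j, 0 < p j := fun _ => one_pos
  obtain ⟨τ, h1, h2⟩ := exists_offline elig hp (fun _ => i₀) (fun _ => Finset.mem_singleton_self _)
    1 (by
      intro w
      refine (Finset.sum_le_sum_of_subset_of_nonneg (Finset.filter_subset _ _)
        (fun j _ _ => (hp j).le)).trans ?_
      simp [p])
  obtain ⟨i, s, hs, h⟩ := hA elig p hne hp τ 1 h1 h2 0
  have h3 := ((A.isSchedule elig p hne hp).start_le (h s le_rfl (by simp [p]))).1
  have h4 : p 0 = 1 := rfl
  rw [h4, mul_one] at hs
  linarith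

lemma pairs_lower {m : ℕ} (A : OnlineAlg m) {c : ℝ} (hA : A.Competitive c) (r : ℕ)
    (hr : 2 * 18 ^ r ≤ m) : (r : ℝ) < 10 * c := by
  classical
  let J : Type := {x : Fin m × Fin m // x.1 ≠ x.2}
  let e : J ≃ Fin (Fintype.card J) := Fintype.equivFin J
  refine lower_pairs A hA (n := Fintype.card J)
    (elig := fun k => {(e.symm k).1.1, (e.symm k).1.2}) ?_ ?_ r hr
  · intro k
    exact Finset.card_pair (e.symm k).2
  · intro v w hvw
    refine ⟨e ⟨(v, w), hvw⟩, ?_⟩
    simp only [Equiv.symm_apply_apply]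

/-- `c*(m) ≥ κ log m` for all `m ≥ 1`, for an absolute constant `κ > 0`. -/
theorem result : ∃ κ : ℝ, 0 < κ ∧ ∀ m : ℕ, 1 ≤ m →
    ((κ * Real.log m : ℝ) : EReal) ≤ cStar m := by
  refine ⟨1 / 36, by norm_num, ?_⟩
  intro m hm
  unfold cStar
  apply le_iInf
  rintro ⟨c, A, hA⟩
  rw [EReal.coe_le_coe_iff]
  show 1 / 36 * Real.log m ≤ c
  have h1 := one_le hm A hA
  by_cases hm2 : m < 2
  · have : m = 1 := by omega
    subst this
    simp
    linarith
  · push Not at hm2
    have hm0 : m / 2 ≠ 0 := by omega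
    let r := Nat.log 18 (m / 2)
    have h2 : 18 ^ r ≤ m / 2 := Nat.pow_log_le_self 18 hm0
    have h3 : m / 2 < 18 ^ (r + 1) := Nat.lt_pow_succ_log_self (by norm_num) _
    have h4 := pairs_lower A hA r (by omega)
    have h5 : m ≤ 2 * 18 ^ (r + 1) := by omega
    have h6 : Real.log m ≤ Real.log 2 + (r + 1) * Real.log 18 := by
      have h7 : (m : ℝ) ≤ 2 * 18 ^ (r + 1) := by exact_mod_cast h5
      have h8 : (0 : ℝ) < m := by exact_mod_cast hm
      calc Real.log m ≤ Real.log (2 * 18 ^ (r + 1)) := Real.log_le_log h8 h7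
        _ = Real.log 2 + (r + 1) * Real.log 18 := by
            rw [Real.log_mul (by norm_num) (by positivity), Real.log_pow]
            push_cast
            ring
    have h9 : Real.log 2 ≤ 1 := by
      have := Real.log_two_lt_d9
      linarith
    have h10 : Real.log 18 ≤ 3 := by
      rw [Real.log_le_iff_le_exp (by norm_num)]
      have h11 : Real.exp 1 > 2.7182818283 := Real.exp_one_gt_d9
      have h12 : Real.exp 3 = Real.exp 1 ^ 3 := by
        rw [← Real.exp_nat_mul]
        norm_num
      rw [h12]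
      have h13 : (2.7 : ℝ) ^ 3 ≤ Real.exp 1 ^ 3 := by
        apply pow_le_pow_left₀ (by norm_num)
        linarith
      linarith [h13, (by norm_num : (18 : ℝ) ≤ 2.7 ^ 3)]
    have h14 : ((r : ℝ) + 1) * Real.log 18 ≤ (r + 1) * 3 :=
      mul_le_mul_of_nonneg_left h10 (by positivity)
    linarith

end Pool.Agent.Results.MP_a5173a_lc.LogLowerBound
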